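import Mathlib

namespace Pool.Agent.P.MP_725651_al

open Matrix Finset

variable {F : Type} [Field F] {n : ℕ}

lemma rank_fact (y : Matrix (Fin n) (Fin n) F) :
    ∃ (P : Matrix (Fin n) (Fin y.rank) F) (Q : Matrix (Fin y.rank) (Fin n) F)
      (P' : Matrix (Fin y.rank) (Fin n) F) (Q' : Matrix (Fin n) (Fin y.rank) F),
      y = P * Q ∧ P' * P = 1 ∧ Q * Q' = 1 := by
  let f : (Fin n → F) →ₗ[F] (Fin n → F) := y.mulVecLin
  let e : LinearMap.range f ≃ₗ[F] (Fin y.rank → F) :=
    LinearEquiv.ofFinrankEq _ _ (by rw [Module.finrank_fin_fun]; rfl)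
  let ι : (Fin y.rank → F) →ₗ[F] (Fin n → F) := (LinearMap.range f).subtype ∘ₗ e.symm.toLinearMap
  let g : (Fin n → F) →ₗ[F] (Fin y.rank → F) := e.toLinearMap ∘ₗ f.rangeRestrict
  have hι : LinearMap.ker ι = ⊥ := by
    rw [LinearMap.ker_eq_bot]
    exact Subtype.val_injective.comp e.symm.injective
  have hg : LinearMap.range g = ⊤ := by
    rw [LinearMap.range_eq_top]
    exact e.surjective.comp f.surjective_rangeRestrict
  obtain ⟨u, hu⟩ := ι.exists_leftInverse_of_injective hι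
  obtain ⟨v, hv⟩ := g.exists_rightInverse_of_surjective hg
  refine ⟨LinearMap.toMatrix' ι, LinearMap.toMatrix' g, LinearMap.toMatrix' u,
    LinearMap.toMatrix' v, ?_, ?_, ?_⟩
  · rw [← LinearMap.toMatrix'_comp]
    have : ι ∘ₗ g = Matrix.toLin' y := by
      apply LinearMap.ext
      intro x
      simp [ι, g, f]
    rw [this, LinearMap.toMatrix'_toLin']
  · rw [← LinearMap.toMatrix'_comp, hu, LinearMap.toMatrix'_id]
  · rw [← LinearMap.toMatrix'_comp, hv, LinearMap.toMatrix'_id]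

lemma rank_le_fact {s : ℕ} (y : Matrix (Fin n) (Fin n) F) (h : y.rank ≤ s) :
    ∃ (P : Matrix (Fin n) (Fin s) F) (Q : Matrix (Fin s) (Fin n) F), y = P * Q := by
  obtain ⟨P, Q, -, -, hy, -, -⟩ := rank_fact y
  let J : Matrix (Fin s) (Fin y.rank) F :=
    (1 : Matrix (Fin s) (Fin s) F).submatrix id (Fin.castLE h)
  let K : Matrix (Fin y.rank) (Fin s) F :=
    (1 : Matrix (Fin s) (Fin s) F).submatrix (Fin.castLE h) id
  have hKJ : K * J = 1 := by
    have := Matrix.submatrix_mul_equiv (1 : Matrix (Fin s) (Fin s) F)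
      (1 : Matrix (Fin s) (Fin s) F) (Fin.castLE h) (Equiv.refl _) (Fin.castLE h)
    simp only [Equiv.coe_refl, Matrix.mul_one] at this
    rw [this, Matrix.submatrix_one _ (Fin.castLE_injective h)]
  refine ⟨P * K, J * Q, ?_⟩
  rw [Matrix.mul_assoc, ← Matrix.mul_assoc K, hKJ, Matrix.one_mul]
  exact hy

variable [Fintype F] [DecidableEq F]

omit [Field F] [DecidableEq F] in
lemma card_mat (a b : ℕ) :
    Fintype.card (Matrix (Fin a) (Fin b) F) = Fintype.card F ^ (a * b) := by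
  have : Fintype.card (Matrix (Fin a) (Fin b) F) = Fintype.card (Fin a → Fin b → F) :=
    Fintype.card_congr Matrix.of.symm
  rw [this, Fintype.card_fun, Fintype.card_fun, Fintype.card_fin, Fintype.card_fin, ← pow_mul,
    mul_comm]

lemma card_rank_le (s : ℕ) :
    (univ.filter fun y : Matrix (Fin n) (Fin n) F => y.rank ≤ s).card
      ≤ Fintype.card F ^ (2 * n * s) := by
  have h : (univ.filter fun y : Matrix (Fin n) (Fin n) F => y.rank ≤ s) ⊆
      (univ : Finset (Matrix (Fin n) (Fin s) F × Matrix (Fin s) (Fin n) F)).image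
        (fun p => p.1 * p.2) := by
    intro y hy
    obtain ⟨P, Q, h⟩ := rank_le_fact y (mem_filter.1 hy).2
    exact mem_image.2 ⟨(P, Q), mem_univ _, h.symm⟩
  refine (card_le_card h).trans (card_image_le.trans (le_of_eq ?_))
  simp only [card_univ, Fintype.card_prod, card_mat]
  ring

lemma card_ker_le (y z : Matrix (Fin n) (Fin n) F) :
    (univ.filter fun a : Matrix (Fin n) (Fin n) F => y * a * z = 0).card
      * Fintype.card F ^ (y.rank * z.rank) ≤ Fintype.card (Matrix (Fin n) (Fin n) F) := by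
  obtain ⟨P, Q, P', Q', hy, hP, hQ⟩ := rank_fact y
  obtain ⟨P₂, Q₂, P₂', Q₂', hz, hP₂, hQ₂⟩ := rank_fact z
  have key : ∀ a : Matrix (Fin n) (Fin n) F, y * a * z = 0 → Q * a * P₂ = 0 := by
    intro a ha
    have : P' * (y * a * z) * Q₂' = Q * a * P₂ := by
      have h1 : P' * (P * Q * a * (P₂ * Q₂)) * Q₂' = (P' * P) * (Q * a * P₂) * (Q₂ * Q₂') := by
        simp only [Matrix.mul_assoc]
      rw [← hy, ← hz] at h1
      rw [h1, hP, hQ₂, Matrix.one_mul, Matrix.mul_one]
    rw [← this, ha, Matrix.mul_zero, Matrix.zero_mul]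
  have key2 : ∀ m : Matrix (Fin y.rank) (Fin z.rank) F, Q * (Q' * m * P₂') * P₂ = m := by
    intro m
    have h1 : Q * (Q' * m * P₂') * P₂ = (Q * Q') * m * (P₂' * P₂) := by
      simp only [Matrix.mul_assoc]
    rw [h1, hQ, hP₂, Matrix.one_mul, Matrix.mul_one]
  have hc : Fintype.card F ^ (y.rank * z.rank) =
      (univ : Finset (Matrix (Fin y.rank) (Fin z.rank) F)).card := by
    rw [card_univ, card_mat]
  rw [hc, ← card_product, ← card_univ]
  refine card_le_card_of_injOn (fun p => p.1 + Q' * p.2 * P₂') (fun _ _ => by simp) ?_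
  rintro ⟨a, m⟩ h1 ⟨a', m'⟩ h2 h
  have h1' : y * a * z = 0 := by simpa using h1
  have h2' : y * a' * z = 0 := by simpa using h2
  simp only at h
  have hm : m = m' := by
    have := congrArg (fun w => Q * w * P₂) h
    simp only [Matrix.mul_add, Matrix.add_mul, key a h1', key a' h2', key2, zero_add] at this
    exact this
  subst hm
  have : a = a' := add_right_cancel h
  rw [this]

lemma prod_bound (q : ℝ) (hq : 2 ≤ q) (m : ℕ) :
    1 / 4 + (1 / 2) ^ (m + 2) ≤ ∏ i ∈ range (m + 1), (1 - (1 / q) ^ (i + 1)) := by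
  have hq0 : 0 < q := by linarith
  have hq1 : 1 / q ≤ 1 / 2 := one_div_le_one_div_of_le (by norm_num) hq
  have hq2 : 0 ≤ 1 / q := by positivity
  induction m with
  | zero => simp only [zero_add, range_one, prod_singleton, pow_one]; linarith
  | succ m ih =>
    rw [prod_range_succ]
    have h1 : (1 / q) ^ (m + 1 + 1) ≤ (1 / 2 : ℝ) ^ (m + 2) := pow_le_pow_left₀ hq2 hq1 _
    have h2 : (1 / 2 : ℝ) ^ (m + 2) ≤ 1 / 4 := by
      rw [pow_add]
      have : (1 / 2 : ℝ) ^ m ≤ 1 := pow_le_one₀ (by norm_num) (by norm_num)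
      nlinarith
    have h3 : (0 : ℝ) < (1 / 2) ^ (m + 2) := by positivity
    have h4 : (1 / 2 : ℝ) ^ (m + 1 + 2) = (1 / 2) ^ (m + 2) / 2 := by ring
    rw [h4]
    set u : ℝ := (1 / 2) ^ (m + 2) with hu
    calc 1 / 4 + u / 2 ≤ (1 / 4 + u) * (1 - u) := by nlinarith
      _ ≤ _ := by
        apply mul_le_mul ih (by linarith) (by linarith)
        linarith

lemma card_mat_le :
    (Fintype.card (Matrix (Fin n) (Fin n) F) : ℝ) ≤ 4 * Fintype.card (GL (Fin n) F) := by
  have hq : 2 ≤ Fintype.card F := Fintype.one_lt_card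
  have hq' : (2 : ℝ) ≤ Fintype.card F := by exact_mod_cast hq
  have hM : Fintype.card (Matrix (Fin n) (Fin n) F) = (Fintype.card F ^ n) ^ n := by
    rw [card_mat, pow_mul]
  rw [hM, ← Nat.card_eq_fintype_card (α := GL (Fin n) F), Matrix.card_GL_field]
  set q : ℕ := Fintype.card F
  have hq0 : (0 : ℝ) < q := by linarith
  have h1 : ((∏ i : Fin n, (q ^ n - q ^ (i : ℕ)) : ℕ) : ℝ) =
      ((q : ℝ) ^ n) ^ n * ∏ i ∈ range n, (1 - (1 / (q : ℝ)) ^ (i + 1)) := by
    rw [Nat.cast_prod, ← prod_range_reflect,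
      Fin.prod_univ_eq_prod_range (fun i => ((q ^ n - q ^ i : ℕ) : ℝ)) n]
    have h2 : ((q : ℝ) ^ n) ^ n = ∏ _i ∈ range n, (q : ℝ) ^ n := by simp
    rw [h2, ← prod_mul_distrib]
    apply prod_congr rfl
    intro i hi
    have hi' := mem_range.1 hi
    rw [Nat.cast_sub (Nat.pow_le_pow_right (by omega) hi'.le)]
    obtain ⟨k, rfl⟩ := Nat.exists_eq_add_of_lt hi'
    have : i + k + 1 - 1 - i + 1 = k + 1 := by omega
    rw [this]
    push_cast
    rw [one_div, inv_pow]
    field_simp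
    ring
  rw [h1]
  push_cast
  have h3 : (0 : ℝ) < ((q : ℝ) ^ n) ^ n := by positivity
  rcases n with _ | m
  · simp
  · have := prod_bound q hq' m
    have h4 : (0 : ℝ) < (1 / 2) ^ (m + 2) := by positivity
    nlinarith

end Pool.Agent.P.MP_725651_al
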