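import Mathlib
import Pool.Agent.P.MP_725651_al.Rank

namespace Pool.Agent.P.MP_725651_al

open Matrix Finset

variable {F : Type} [Field F] [Fintype F] [DecidableEq F] {n : ℕ}

/-- The additive character `A ↦ ψ (tr A)` of the matrix ring. -/
noncomputable def ch (F : Type) [Field F] [Fintype F] (n : ℕ) :
    AddChar (Matrix (Fin n) (Fin n) F) ℂ :=
  (AddChar.FiniteField.primitiveChar_to_Complex F).compAddMonoidHom
    (Matrix.traceAddMonoidHom (Fin n) F)

omit [DecidableEq F] in
lemma ch_apply (A : Matrix (Fin n) (Fin n) F) :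
    ch F n A = AddChar.FiniteField.primitiveChar_to_Complex F (Matrix.trace A) := rfl

omit [DecidableEq F] in
lemma ch_comm (A B : Matrix (Fin n) (Fin n) F) : ch F n (A * B) = ch F n (B * A) := by
  rw [ch_apply, ch_apply, Matrix.trace_mul_comm]

omit [DecidableEq F] in
lemma ch_sum {ι : Type} (s : Finset ι) (f : ι → Matrix (Fin n) (Fin n) F) :
    ch F n (∑ i ∈ s, f i) = ∏ i ∈ s, ch F n (f i) := by
  classical
  induction s using Finset.induction_on with
  | empty => simp
  | insert i s hi ih => rw [sum_insert hi, prod_insert hi, AddChar.map_add_eq_mul, ih]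

lemma orth (z : Matrix (Fin n) (Fin n) F) :
    ∑ y : Matrix (Fin n) (Fin n) F, ch F n (y * z) =
      if z = 0 then (Fintype.card (Matrix (Fin n) (Fin n) F) : ℂ) else 0 := by
  split_ifs with h
  · simp [h]
  · have hne : ((ch F n).compAddMonoidHom (AddMonoidHom.mulRight z)) ≠ 1 := by
      rw [AddChar.ne_one_iff]
      obtain ⟨i, j, hij⟩ : ∃ i j, z i j ≠ 0 := by
        by_contra hc
        push Not at hc
        exact h (Matrix.ext hc)
      have hp := AddChar.FiniteField.primitiveChar_to_Complex_isPrimitive F hij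
      obtain ⟨t, ht⟩ := AddChar.ne_one_iff.1 hp
      refine ⟨Matrix.single j i t, ?_⟩
      change ch F n (Matrix.single j i t * z) ≠ 1
      rw [ch_apply, Matrix.trace_single_mul, smul_eq_mul, mul_comm]
      exact ht
    exact AddChar.sum_eq_zero_of_ne_one hne

/-- The character sum of `a X b` at frequency `y`. -/
noncomputable def S (X : Finset (Matrix (Fin n) (Fin n) F)) (y a b : Matrix (Fin n) (Fin n) F) :
    ℂ := ∑ x ∈ X, ch F n (y * (a * x * b))

lemma cover_of_fourier {μ : ℕ} (X : Fin μ → Finset (Matrix (Fin n) (Fin n) F))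
    (a b : Fin μ → Matrix (Fin n) (Fin n) F)
    (h : ∑ y ∈ univ.erase (0 : Matrix (Fin n) (Fin n) F), ∏ i, ‖S (X i) y (a i) (b i)‖
      < ∏ i, ((X i).card : ℝ)) (z : Matrix (Fin n) (Fin n) F) :
    ∃ x : Fin μ → Matrix (Fin n) (Fin n) F, (∀ i, x i ∈ X i) ∧ ∑ i, a i * x i * b i = z := by
  by_contra hc
  push Not at hc
  have h1 : ∑ y : Matrix (Fin n) (Fin n) F,
      ch F n (-(y * z)) * ∏ i, S (X i) y (a i) (b i) = 0 := by
    simp only [S]
    simp_rw [Finset.prod_univ_sum, Finset.mul_sum]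
    rw [Finset.sum_comm]
    apply Finset.sum_eq_zero
    intro x hx
    have hx' := hc x (Fintype.mem_piFinset.1 hx)
    have h2 := orth (∑ i, a i * x i * b i - z)
    rw [if_neg (sub_ne_zero.2 hx')] at h2
    rw [← h2]
    apply Finset.sum_congr rfl
    intro y _
    rw [Matrix.mul_sub, sub_eq_add_neg, AddChar.map_add_eq_mul, Matrix.mul_sum,
      ch_sum, mul_comm]
  rw [← Finset.add_sum_erase _ _ (mem_univ (0 : Matrix (Fin n) (Fin n) F))] at h1
  have h3 : ch F n (-((0 : Matrix (Fin n) (Fin n) F) * z)) * ∏ i, S (X i) 0 (a i) (b i)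
      = ((∏ i, ((X i).card : ℝ) : ℝ) : ℂ) := by
    simp [S]
  rw [h3] at h1
  have h4 := eq_neg_of_add_eq_zero_left h1
  have h5 := congrArg norm h4
  rw [norm_neg, Complex.norm_real, Real.norm_of_nonneg (Finset.prod_nonneg fun i _ => Nat.cast_nonneg _)] at h5
  refine absurd h (not_lt.2 ?_)
  rw [h5]
  refine (norm_sum_le _ _).trans (le_of_eq ?_)
  apply Finset.sum_congr rfl
  intro y _
  rw [norm_mul, AddChar.norm_apply, one_mul, norm_prod]

lemma sum_sq_b (X : Finset (Matrix (Fin n) (Fin n) F)) (y a : Matrix (Fin n) (Fin n) F) :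
    ∑ b : Matrix (Fin n) (Fin n) F, ‖S X y a b‖ ^ 2 =
      (Fintype.card (Matrix (Fin n) (Fin n) F) : ℝ) *
        ∑ x ∈ X, ∑ x' ∈ X, if y * a * (x - x') = 0 then (1 : ℝ) else 0 := by
  apply Complex.ofReal_injective
  push_cast
  have h1 : ∀ b : Matrix (Fin n) (Fin n) F, ((‖S X y a b‖ : ℂ)) ^ 2 =
      ∑ x ∈ X, ∑ x' ∈ X, ch F n (b * (y * a * (x - x'))) := by
    intro b
    rw [← Complex.mul_conj', S, map_sum, Finset.sum_mul_sum]
    apply Finset.sum_congr rfl
    intro x _
    apply Finset.sum_congr rfl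
    intro x' _
    rw [← AddChar.map_neg_eq_conj, ← AddChar.map_add_eq_mul, ch_comm b]
    congr 1
    noncomm_ring
  simp_rw [h1]
  rw [Finset.sum_comm, Finset.mul_sum]
  apply Finset.sum_congr rfl
  intro x _
  rw [Finset.sum_comm, Finset.mul_sum]
  apply Finset.sum_congr rfl
  intro x' _
  rw [orth]
  split_ifs <;> simp

lemma sum_sq_ab (X : Finset (Matrix (Fin n) (Fin n) F)) (y : Matrix (Fin n) (Fin n) F) (s : ℕ) :
    ∑ a : Matrix (Fin n) (Fin n) F, ∑ b : Matrix (Fin n) (Fin n) F, ‖S X y a b‖ ^ 2 ≤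
      (Fintype.card (Matrix (Fin n) (Fin n) F) : ℝ) ^ 2 * X.card *
        ((Fintype.card F : ℝ) ^ (2 * n * s) +
          X.card / (Fintype.card F : ℝ) ^ (y.rank * (s + 1))) := by
  simp_rw [sum_sq_b]
  set N : ℝ := (Fintype.card (Matrix (Fin n) (Fin n) F) : ℝ) with hN
  set q : ℝ := (Fintype.card F : ℝ) with hq
  have hq1 : 1 ≤ q := by
    have : 1 ≤ Fintype.card F := Fintype.card_pos
    rw [hq]; exact_mod_cast this
  have hN0 : 0 ≤ N := by positivity
  rw [← Finset.mul_sum, pow_two N, mul_assoc, mul_assoc]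
  apply mul_le_mul_of_nonneg_left _ hN0
  rw [Finset.sum_comm]
  have key : ∀ x ∈ X, ∑ a : Matrix (Fin n) (Fin n) F, ∑ x' ∈ X,
      (if y * a * (x - x') = 0 then (1 : ℝ) else 0) ≤
      N * (q ^ (2 * n * s) + X.card / q ^ (y.rank * (s + 1))) := by
    intro x _
    rw [Finset.sum_comm]
    have k1 : ∀ x' ∈ X, ∑ a : Matrix (Fin n) (Fin n) F,
        (if y * a * (x - x') = 0 then (1 : ℝ) else 0) ≤
        N * ((if (x - x').rank ≤ s then (1 : ℝ) else 0) + 1 / q ^ (y.rank * (s + 1))) := by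
      intro x' _
      rw [Finset.sum_boole]
      have k2 : ((univ.filter fun a : Matrix (Fin n) (Fin n) F => y * a * (x - x') = 0).card : ℝ)
          * q ^ (y.rank * (x - x').rank) ≤ N := by
        rw [hN, hq]
        exact_mod_cast card_ker_le y (x - x')
      set c : ℝ :=
        ((univ.filter fun a : Matrix (Fin n) (Fin n) F => y * a * (x - x') = 0).card : ℝ)
      have hc0 : 0 ≤ c := by positivity
      have hp : 0 < q ^ (y.rank * (s + 1)) := by positivity
      split_ifs with hr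
      · have k3 : 1 ≤ q ^ (y.rank * (x - x').rank) := one_le_pow₀ hq1
        have k4 : 0 ≤ N * (1 / q ^ (y.rank * (s + 1))) := by positivity
        nlinarith
      · have k3 : q ^ (y.rank * (s + 1)) ≤ q ^ (y.rank * (x - x').rank) :=
          pow_le_pow_right₀ hq1 (Nat.mul_le_mul_left _ (by omega))
        rw [zero_add, mul_one_div, le_div_iff₀ hp]
        nlinarith
    refine (Finset.sum_le_sum k1).trans ?_
    rw [← Finset.mul_sum]
    apply mul_le_mul_of_nonneg_left _ hN0
    rw [Finset.sum_add_distrib, Finset.sum_boole, Finset.sum_const, nsmul_eq_mul, mul_one_div]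
    gcongr
    have k5 : (X.filter fun x' => (x - x').rank ≤ s).card ≤
        (univ.filter fun w : Matrix (Fin n) (Fin n) F => w.rank ≤ s).card := by
      refine card_le_card_of_injOn (fun x' => x - x') ?_ ?_
      · intro x' hx'
        have := (mem_filter.1 hx').2
        simpa using this
      · intro u _ v _ huv
        exact sub_right_injective huv
    rw [hq]
    exact_mod_cast k5.trans (card_rank_le s)
  refine (Finset.sum_le_sum key).trans (le_of_eq ?_)
  rw [Finset.sum_const, nsmul_eq_mul]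
  ring

lemma sum_GL (X : Finset (Matrix (Fin n) (Fin n) F)) (y : Matrix (Fin n) (Fin n) F) (s : ℕ)
    (η : ℝ) (hη : 0 ≤ η)
    (h : 16 * ((Fintype.card F : ℝ) ^ (2 * n * s) +
          X.card / (Fintype.card F : ℝ) ^ (y.rank * (s + 1))) ≤ η ^ 2 * X.card) :
    ∑ p : GL (Fin n) F × GL (Fin n) F, ‖S X y p.1 p.2‖ ≤
      η * (Fintype.card (GL (Fin n) F × GL (Fin n) F) * X.card) := by
  apply le_of_sq_le_sq _ (by positivity)
  refine sq_sum_le_card_mul_sum_sq.trans ?_
  have h1 : ∑ p : GL (Fin n) F × GL (Fin n) F, ‖S X y p.1 p.2‖ ^ 2 ≤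
      ∑ a : Matrix (Fin n) (Fin n) F, ∑ b : Matrix (Fin n) (Fin n) F, ‖S X y a b‖ ^ 2 := by
    rw [← Fintype.sum_prod_type']
    have hinj : Function.Injective (fun p : GL (Fin n) F × GL (Fin n) F =>
        ((p.1 : Matrix (Fin n) (Fin n) F), (p.2 : Matrix (Fin n) (Fin n) F))) := by
      intro p p' hp
      simp only [Prod.mk.injEq] at hp
      exact Prod.ext (Units.ext hp.1) (Units.ext hp.2)
    refine (Finset.sum_map univ ⟨_, hinj⟩
      (fun p : Matrix (Fin n) (Fin n) F × Matrix (Fin n) (Fin n) F =>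
        ‖S X y p.1 p.2‖ ^ 2)).symm.le.trans ?_
    exact Finset.sum_le_sum_of_subset_of_nonneg (subset_univ _) fun _ _ _ => by positivity
  have h2 := h1.trans (sum_sq_ab X y s)
  have h3 := card_mat_le (F := F) (n := n)
  rw [card_univ, Fintype.card_prod]
  push_cast
  set g : ℝ := (Fintype.card (GL (Fin n) F) : ℝ)
  set N : ℝ := (Fintype.card (Matrix (Fin n) (Fin n) F) : ℝ)
  set B : ℝ := (Fintype.card F : ℝ) ^ (2 * n * s) +
          X.card / (Fintype.card F : ℝ) ^ (y.rank * (s + 1))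
  have hB : 0 ≤ B := by positivity
  have hN : 0 ≤ N := by positivity
  have hg : 0 ≤ g := by positivity
  have hX : (0 : ℝ) ≤ X.card := by positivity
  have h4 : N ^ 2 ≤ 16 * g ^ 2 := by nlinarith
  calc g * g * ∑ p : GL (Fin n) F × GL (Fin n) F, ‖S X y p.1 p.2‖ ^ 2
      ≤ g * g * (N ^ 2 * X.card * B) := by gcongr
    _ ≤ g * g * (16 * g ^ 2 * X.card * B) := by gcongr
    _ = g ^ 4 * X.card * (16 * B) := by ring
    _ ≤ g ^ 4 * X.card * (η ^ 2 * X.card) := by gcongr
    _ = _ := by ring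

lemma cover_of_eta {μ : ℕ} (X : Fin μ → Finset (Matrix (Fin n) (Fin n) F)) (s : ℕ)
    (η : Matrix (Fin n) (Fin n) F → ℝ) (hη : ∀ y, 0 ≤ η y) (hX : ∀ i, 0 < (X i).card)
    (h : ∀ i, ∀ y : Matrix (Fin n) (Fin n) F, y ≠ 0 → 16 * ((Fintype.card F : ℝ) ^ (2 * n * s) +
          (X i).card / (Fintype.card F : ℝ) ^ (y.rank * (s + 1))) ≤ η y ^ 2 * (X i).card)
    (hs : ∑ y ∈ univ.erase (0 : Matrix (Fin n) (Fin n) F), η y ^ μ < 1) :
    ∃ a b : Fin μ → GL (Fin n) F, ∀ z : Matrix (Fin n) (Fin n) F,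
      ∃ x : Fin μ → Matrix (Fin n) (Fin n) F, (∀ i, x i ∈ X i) ∧
        ∑ i, (a i : Matrix (Fin n) (Fin n) F) * x i * (b i : Matrix (Fin n) (Fin n) F) = z := by
  have h1 : ∑ p : Fin μ → GL (Fin n) F × GL (Fin n) F,
      ∑ y ∈ univ.erase (0 : Matrix (Fin n) (Fin n) F), ∏ i, ‖S (X i) y (p i).1 (p i).2‖ <
      ∑ _p : Fin μ → GL (Fin n) F × GL (Fin n) F, ∏ i, ((X i).card : ℝ) := by
    rw [Finset.sum_comm]
    have h2 : ∀ y ∈ univ.erase (0 : Matrix (Fin n) (Fin n) F),
        ∑ p : Fin μ → GL (Fin n) F × GL (Fin n) F, ∏ i, ‖S (X i) y (p i).1 (p i).2‖ ≤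
        η y ^ μ * ∏ i, ((Fintype.card (GL (Fin n) F × GL (Fin n) F) : ℝ) * (X i).card) := by
      intro y hy
      have h3 := Finset.prod_univ_sum (fun _ : Fin μ => (univ : Finset (GL (Fin n) F × GL (Fin n) F)))
        (fun i p => ‖S (X i) y p.1 p.2‖)
      rw [Fintype.piFinset_univ] at h3
      rw [← h3]
      have h4 : η y ^ μ = ∏ _i : Fin μ, η y := by simp
      rw [h4, ← prod_mul_distrib]
      apply Finset.prod_le_prod
      · intro i _
        positivity
      · intro i _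
        exact sum_GL (X i) y s (η y) (hη y) (h i y (ne_of_mem_erase hy))
    refine (Finset.sum_le_sum h2).trans_lt ?_
    rw [← Finset.sum_mul]
    have h5 : ∑ _p : Fin μ → GL (Fin n) F × GL (Fin n) F, ∏ i, ((X i).card : ℝ) =
        ∏ i, ((Fintype.card (GL (Fin n) F × GL (Fin n) F) : ℝ) * (X i).card) := by
      rw [prod_mul_distrib, Finset.sum_const, card_univ, Fintype.card_fun, nsmul_eq_mul]
      simp
    rw [h5]
    apply mul_lt_of_lt_one_left _ hs
    apply Finset.prod_pos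
    intro i _
    have := hX i
    have : 0 < Fintype.card (GL (Fin n) F × GL (Fin n) F) := Fintype.card_pos
    positivity
  obtain ⟨p, -, hp⟩ := Finset.exists_lt_of_sum_lt h1
  exact ⟨fun i => (p i).1, fun i => (p i).2,
    cover_of_fourier X (fun i => (p i).1) (fun i => (p i).2) hp⟩

end Pool.Agent.P.MP_725651_al
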