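import Mathlib
import Pool.Agent.P.MP_725651_al.Fourier

namespace Pool.Agent.P.MP_725651_al

open Matrix Finset

variable {F : Type} [Field F] [Fintype F] [DecidableEq F] {n : ℕ}

omit [Fintype F] [DecidableEq F] in
lemma one_le_rank {y : Matrix (Fin n) (Fin n) F} (hy : y ≠ 0) : 1 ≤ y.rank := by
  by_contra h
  obtain ⟨P, Q, h⟩ := rank_le_fact (s := 0) y (by omega)
  apply hy
  rw [h]
  ext i j
  simp [Matrix.mul_apply]

lemma sum_rank_lt (hn : 1 ≤ n) :
    ∑ y ∈ univ.erase (0 : Matrix (Fin n) (Fin n) F),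
      (1 / (Fintype.card F : ℝ) ^ (4 * n)) ^ y.rank < 1 := by
  have hq : 2 ≤ Fintype.card F := Fintype.one_lt_card
  have hq' : (2 : ℝ) ≤ Fintype.card F := by exact_mod_cast hq
  have hmaps : ∀ y ∈ univ.erase (0 : Matrix (Fin n) (Fin n) F), y.rank ∈ Icc 1 n := fun y hy =>
    mem_Icc.2 ⟨one_le_rank (ne_of_mem_erase hy), Matrix.rank_le_width y⟩
  rw [← Finset.sum_fiberwise_of_maps_to hmaps]
  have h1 : ∀ r ∈ Icc 1 n, ∑ y ∈ (univ.erase (0 : Matrix (Fin n) (Fin n) F)).filter
      (fun y => y.rank = r), (1 / (Fintype.card F : ℝ) ^ (4 * n)) ^ y.rank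
        ≤ 1 / (2 : ℝ) ^ n := by
    intro r hr
    have hr1 := (mem_Icc.1 hr).1
    rw [Finset.sum_congr rfl (g := fun _ => (1 / (Fintype.card F : ℝ) ^ (4 * n)) ^ r)
      (fun y hy => by rw [(mem_filter.1 hy).2]), Finset.sum_const, nsmul_eq_mul]
    have h2 : ((univ.erase (0 : Matrix (Fin n) (Fin n) F)).filter (fun y => y.rank = r)).card ≤
        Fintype.card F ^ (2 * n * r) := by
      refine le_trans (card_le_card ?_) (card_rank_le r)
      intro y hy
      exact mem_filter.2 ⟨mem_univ _, (mem_filter.1 hy).2.le⟩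
    have h3 : (((univ.erase (0 : Matrix (Fin n) (Fin n) F)).filter
        (fun y => y.rank = r)).card : ℝ) ≤ (Fintype.card F : ℝ) ^ (2 * n * r) := by
      exact_mod_cast h2
    set q : ℝ := (Fintype.card F : ℝ)
    have hq0 : 0 < q := by linarith
    calc _ ≤ q ^ (2 * n * r) * (1 / q ^ (4 * n)) ^ r := by gcongr
      _ = 1 / q ^ (2 * n * r) := by
        rw [one_div, inv_pow, ← pow_mul]
        field_simp
        ring
      _ ≤ 1 / (2 : ℝ) ^ n := by
        apply one_div_le_one_div_of_le (by positivity)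
        calc (2 : ℝ) ^ n ≤ q ^ n := by gcongr
          _ ≤ _ := pow_le_pow_right₀ (by linarith) (by nlinarith)
  refine (Finset.sum_le_sum h1).trans_lt ?_
  rw [Finset.sum_const, Nat.card_Icc, nsmul_eq_mul, Nat.add_sub_cancel, mul_one_div,
    div_lt_one (by positivity)]
  exact_mod_cast Nat.lt_two_pow_self

lemma large_cover {μ : ℕ} (hn : 1 ≤ n) (X : Fin μ → Finset (Matrix (Fin n) (Fin n) F)) (s : ℕ)
    (t : ℝ) (ht0 : 0 < t) (ht : 32 ≤ t ^ 2)
    (h2 : ∀ i, (Fintype.card F : ℝ) ^ (2 * n * s) * t ^ (4 * n) ≤ (X i).card)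
    (h3 : t ^ 4 ≤ (Fintype.card F : ℝ) ^ (s + 1))
    (h4 : (Fintype.card F : ℝ) ^ (4 * n) ≤ t ^ μ) :
    ∃ a b : Fin μ → GL (Fin n) F, ∀ z : Matrix (Fin n) (Fin n) F,
      ∃ x : Fin μ → Matrix (Fin n) (Fin n) F, (∀ i, x i ∈ X i) ∧
        ∑ i, (a i : Matrix (Fin n) (Fin n) F) * x i * (b i : Matrix (Fin n) (Fin n) F) = z := by
  have hq : 0 < Fintype.card F := Fintype.card_pos
  have hq0 : (0 : ℝ) < Fintype.card F := by exact_mod_cast hq
  have ht1 : 1 ≤ t := by nlinarith
  apply cover_of_eta X s (fun y => (1 / t) ^ y.rank) (fun y => by positivity)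
  · intro i
    have : (0 : ℝ) < (X i).card := lt_of_lt_of_le (by positivity) (h2 i)
    exact_mod_cast this
  · intro i y hy
    have r1 := one_le_rank hy
    have r2 : y.rank ≤ n := Matrix.rank_le_width y
    set r := y.rank
    set q : ℝ := (Fintype.card F : ℝ)
    have hX : (0 : ℝ) ≤ (X i).card := by positivity
    have e1 : q ^ (2 * n * s) ≤ (X i).card / t ^ (4 * r) := by
      rw [le_div_iff₀ (by positivity)]
      refine le_trans ?_ (h2 i)
      have : t ^ (4 * r) ≤ t ^ (4 * n) := pow_le_pow_right₀ ht1 (by omega)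
      gcongr
    have e2 : ((X i).card : ℝ) / q ^ (r * (s + 1)) ≤ (X i).card / t ^ (4 * r) := by
      apply div_le_div_of_nonneg_left hX (by positivity)
      rw [mul_comm r, pow_mul, pow_mul]
      gcongr
    have e3 : 32 ≤ t ^ (2 * r) := ht.trans (pow_le_pow_right₀ ht1 (by omega))
    calc 16 * (q ^ (2 * n * s) + ((X i).card : ℝ) / q ^ (r * (s + 1)))
        ≤ 32 * ((X i).card / t ^ (4 * r)) := by linarith
      _ ≤ t ^ (2 * r) * ((X i).card / t ^ (4 * r)) := by gcongr
      _ = ((1 / t) ^ r) ^ 2 * (X i).card := by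
        rw [one_div, inv_pow, inv_pow, ← pow_mul]
        field_simp
        ring
  · refine lt_of_le_of_lt (Finset.sum_le_sum ?_) (sum_rank_lt (F := F) hn)
    intro y _
    rw [← pow_mul, mul_comm, pow_mul]
    apply pow_le_pow_left₀ (by positivity)
    rw [one_div, inv_pow, one_div]
    exact inv_anti₀ (by positivity) h4

end Pool.Agent.P.MP_725651_al
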