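import Mathlib

namespace Pool.Agent.P.MP_725651_al

open Matrix Finset
open scoped Pointwise

variable {F : Type} [Field F] {n : ℕ}

lemma addSubgroup_top_of_singles (H : AddSubgroup (Matrix (Fin n) (Fin n) F))
    (h : ∀ i j t, Matrix.single i j t ∈ H) (A : Matrix (Fin n) (Fin n) F) : A ∈ H := by
  rw [Matrix.matrix_eq_sum_single A]
  exact sum_mem fun i _ => sum_mem fun j _ => h i j _

lemma addSubgroup_top_of_units (H : AddSubgroup (Matrix (Fin n) (Fin n) F))
    (h : ∀ u : GL (Fin n) F, (u : Matrix (Fin n) (Fin n) F) ∈ H) (A : Matrix (Fin n) (Fin n) F) :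
    A ∈ H := by
  have hu : ∀ B : Matrix (Fin n) (Fin n) F, B.det ≠ 0 → B ∈ H := fun B hB =>
    h (Matrix.GeneralLinearGroup.mkOfDetNeZero B hB)
  have h1 : (1 : Matrix (Fin n) (Fin n) F) ∈ H := hu 1 (by simp)
  apply addSubgroup_top_of_singles
  intro i j t
  by_cases hij : i = j
  · subst hij
    by_cases hex : ∃ k, k ≠ i
    · obtain ⟨k, hk⟩ := hex
      have e1 : Matrix.single i i t = Matrix.transvection i k t * Matrix.transvection k i 1
          - Matrix.transvection i k t - Matrix.transvection k i 1 + 1 := by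
        have : Matrix.single i i t = Matrix.single i k t * Matrix.single k i (1 : F) := by
          rw [Matrix.single_mul_single_same, mul_one]
        rw [this]
        simp only [Matrix.transvection]
        noncomm_ring
      have d1 := Matrix.det_transvection_of_ne i k hk.symm t
      have d2 := Matrix.det_transvection_of_ne k i hk (1 : F)
      rw [e1]
      refine H.add_mem (H.sub_mem (H.sub_mem (hu _ ?_) (hu _ ?_)) (hu _ ?_)) h1
      · rw [Matrix.det_mul, d1, d2]; simp
      · rw [d1]; simp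
      · rw [d2]; simp
    · push Not at hex
      by_cases ht : t = 0
      · rw [ht, Matrix.single_zero]; exact H.zero_mem
      · apply hu
        have : Matrix.single i i t = Matrix.diagonal fun _ => t := by
          ext a b
          rw [hex a, hex b]
          simp
        rw [this, Matrix.det_diagonal]
        exact Finset.prod_ne_zero_iff.2 fun _ _ => ht
  · have e1 : Matrix.single i j t = Matrix.transvection i j t - 1 := by
      simp [Matrix.transvection]
    rw [e1]
    refine H.sub_mem (hu _ ?_) h1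
    rw [Matrix.det_transvection_of_ne i j hij]; simp

lemma addSubgroup_top_of_orbit (H : AddSubgroup (Matrix (Fin n) (Fin n) F))
    (d : Matrix (Fin n) (Fin n) F) (hd : d ≠ 0)
    (h : ∀ a b : GL (Fin n) F,
      (a : Matrix (Fin n) (Fin n) F) * d * (b : Matrix (Fin n) (Fin n) F) ∈ H)
    (A : Matrix (Fin n) (Fin n) F) : A ∈ H := by
  have h1 : ∀ (b : GL (Fin n) F) (a : Matrix (Fin n) (Fin n) F),
      a * d * (b : Matrix (Fin n) (Fin n) F) ∈ H := by
    intro b a
    have := addSubgroup_top_of_units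
      (H.comap (AddMonoidHom.mulRight (d * (b : Matrix (Fin n) (Fin n) F))))
      (fun u => by simpa [Matrix.mul_assoc] using h u b) a
    simpa [Matrix.mul_assoc] using this
  have h2 : ∀ a b : Matrix (Fin n) (Fin n) F, a * d * b ∈ H := by
    intro a b
    have := addSubgroup_top_of_units (H.comap (AddMonoidHom.mulLeft (a * d)))
      (fun u => by simpa using h1 u a) b
    simpa using this
  obtain ⟨k, l, hkl⟩ : ∃ k l, d k l ≠ 0 := by
    by_contra hc
    push Not at hc
    exact hd (Matrix.ext hc)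
  apply addSubgroup_top_of_singles
  intro i j t
  have := h2 (Matrix.single i k (t / d k l)) (Matrix.single l j 1)
  rw [Matrix.single_mul_mul_single] at this
  rwa [mul_one, div_mul_cancel₀ _ hkl] at this

variable [Fintype F] [DecidableEq F]

lemma grow (X T : Finset (Matrix (Fin n) (Fin n) F)) (hX : 2 ≤ X.card) (hT : T.Nonempty) :
    ∃ a b : GL (Fin n) F, min (Fintype.card (Matrix (Fin n) (Fin n) F)) (T.card + 1) ≤
      (X.image (fun x => (a : Matrix (Fin n) (Fin n) F) * x * (b : Matrix (Fin n) (Fin n) F))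
        + T).card := by
  obtain ⟨x, hx, x', hx', hne⟩ := Finset.one_lt_card.1 hX
  by_cases hall : ∀ a b : GL (Fin n) F,
      (a : Matrix (Fin n) (Fin n) F) * (x' - x) * (b : Matrix (Fin n) (Fin n) F) ∈
        AddAction.stabilizer (Matrix (Fin n) (Fin n) F) T
  · have htop := addSubgroup_top_of_orbit _ (x' - x) (sub_ne_zero.2 hne.symm) hall
    obtain ⟨t, ht⟩ := hT
    have hTu : T = univ := by
      apply eq_univ_of_forall
      intro w
      have h1 := AddAction.mem_stabilizer_iff.1 (htop (w - t))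
      rw [← h1]
      exact Finset.mem_vadd_finset.2 ⟨t, ht, by simp⟩
    refine ⟨1, 1, (min_le_left _ _).trans ?_⟩
    rw [← card_univ, ← hTu]
    exact Finset.card_le_card_add_left ⟨_, mem_image_of_mem _ hx⟩
  · push Not at hall
    obtain ⟨a, b, hab⟩ := hall
    refine ⟨a, b, (min_le_right _ _).trans ?_⟩
    set d := (a : Matrix (Fin n) (Fin n) F) * (x' - x) * (b : Matrix (Fin n) (Fin n) F) with hd
    have h1 : ¬ (d +ᵥ T ⊆ T) := fun hsub => hab (AddAction.mem_stabilizer_iff.2
      (Finset.eq_of_subset_of_card_le hsub (by rw [Finset.card_vadd_finset])))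
    obtain ⟨w, hw, hwT⟩ := Finset.not_subset.1 h1
    obtain ⟨t, ht, rfl⟩ := Finset.mem_vadd_finset.1 hw
    set u := (a : Matrix (Fin n) (Fin n) F) * x * (b : Matrix (Fin n) (Fin n) F) with hu
    have h2 : u +ᵥ (insert (d +ᵥ t) T) ⊆
        X.image (fun x => (a : Matrix (Fin n) (Fin n) F) * x * (b : Matrix (Fin n) (Fin n) F))
          + T := by
      intro v hv
      obtain ⟨w, hw', rfl⟩ := Finset.mem_vadd_finset.1 hv
      rcases mem_insert.1 hw' with rfl | hw'
      · refine Finset.mem_add.2 ⟨_, mem_image_of_mem _ hx', t, ht, ?_⟩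
        simp only [vadd_eq_add, hd, hu]
        noncomm_ring
      · exact Finset.mem_add.2 ⟨_, mem_image_of_mem _ hx, w, hw', rfl⟩
    have h3 := card_le_card h2
    rwa [Finset.card_vadd_finset, card_insert_of_notMem hwT] at h3

lemma small_aux (m : ℕ) (X : Fin m → Finset (Matrix (Fin n) (Fin n) F))
    (hX : ∀ i, 2 ≤ (X i).card) :
    ∃ a b : Fin m → GL (Fin n) F, min (Fintype.card (Matrix (Fin n) (Fin n) F)) (m + 1) ≤
      (∑ i, (X i).image (fun x =>
        (a i : Matrix (Fin n) (Fin n) F) * x * (b i : Matrix (Fin n) (Fin n) F))).card := by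
  induction m with
  | zero => exact ⟨fun _ => 1, fun _ => 1, by simp⟩
  | succ m ih =>
    obtain ⟨a, b, hab⟩ := ih (fun i => X i.succ) (fun i => hX _)
    have hpos : 0 < Fintype.card (Matrix (Fin n) (Fin n) F) := Fintype.card_pos
    obtain ⟨a₀, b₀, h0⟩ := grow (X 0) _ (hX 0) (card_pos.1 (lt_of_lt_of_le (by omega) hab))
    refine ⟨Fin.cons a₀ a, Fin.cons b₀ b, ?_⟩
    rw [Fin.sum_univ_succ]
    simp only [Fin.cons_zero, Fin.cons_succ]
    omega

lemma small_cover (m : ℕ) (hm : Fintype.card (Matrix (Fin n) (Fin n) F) ≤ m)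
    (X : Fin m → Finset (Matrix (Fin n) (Fin n) F)) (hX : ∀ i, 2 ≤ (X i).card) :
    ∃ a b : Fin m → GL (Fin n) F, ∀ z : Matrix (Fin n) (Fin n) F,
      ∃ x : Fin m → Matrix (Fin n) (Fin n) F, (∀ i, x i ∈ X i) ∧
        ∑ i, (a i : Matrix (Fin n) (Fin n) F) * x i * (b i : Matrix (Fin n) (Fin n) F) = z := by
  obtain ⟨a, b, hab⟩ := small_aux m X hX
  refine ⟨a, b, fun z => ?_⟩
  have h1 := Finset.eq_univ_of_card _ (le_antisymm (card_le_univ _) (le_trans (by omega) hab))
  have h2 := h1 ▸ mem_univ z
  rw [← Finset.mem_coe, Finset.coe_sum, Set.mem_fintype_sum] at h2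
  obtain ⟨g, hg, hz⟩ := h2
  have h3 : ∀ i, ∃ x ∈ X i,
      (a i : Matrix (Fin n) (Fin n) F) * x * (b i : Matrix (Fin n) (Fin n) F) = g i := by
    intro i
    simpa using hg i
  choose x hx hx' using h3
  exact ⟨x, hx, by rw [← hz]; exact Finset.sum_congr rfl fun i _ => hx' i⟩

end Pool.Agent.P.MP_725651_al
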